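import Pool.Agent.MVO.StmtsG2
import Pool.Agent.Helper47_MVO.TWO
import Pool.Agent.Helper41_MVO.TYP
import Pool.Agent.Helper28_MVO.ORD
import Pool.Agent.Helper47_MVO.ASB
import Pool.Agent.Helper10_MVO.BUB
import Pool.Agent.Helper31_MVO.COM
import Pool.Agent.Helper44_MVO.CHB
import Pool.Agent.Helper88_MVO.RED
import Pool.Agent.Helper38_MVO.REN
import Pool.Agent.Helper75_MVO.NAM
import Pool.Agent.Helper6_MVO.SEQ
import Pool.Agent.Helper60_MVO.ALN
import Pool.Agent.Helper5_MVO.ONE

set_option autoImplicit false

/-!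
Squad MVO, row SU2: the sufficiency theorem for 2-determined intervals (adapted from the files TWO,
TYP, ORD, ASB of helper47, helper41, helper28).
-/

namespace Pool.Agent.MVO.H20

open Pool.Agent.Helper14_MV Pool.Agent.Helper2_MV Pool.Agent.MVO

section TWO
open Pool.Agent.MVO.H47
theorem two2 (β : FIC) (hG : Gath2 β) (hR : Rig β) (hT : Tight β) : Two β := by
  intro ρ hβρ hNC k a b e B ha hb hB hB01 hd0 hd1 hr
  obtain ⟨D, hD, hDr⟩ := hG k B [0, 1] (by simp) hB (by simp) (by
      intro c hc hs
      simp only [List.mem_cons, List.not_mem_nil, or_false] at hc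
      omega) (by
      intro j hj c hc
      have := hB01 j hj c hc
      simpa using this) (by
      intro c hc
      simp only [List.mem_cons, List.not_mem_nil, or_false] at hc
      rcases hc with rfl | rfl
      · rw [hd0]; exact ha
      · rw [hd1]; exact hb)
  set a' : ℕ → ℕ := fun j => (B j).count 0 with ha'
  set b' : ℕ → ℕ := fun j => (B j).count 1 with hb'
  set e' : ℕ → Bool := fun j => decide (D j = [1, 0]) with he'
  have hgw : gw k (fun j c => (B j).count c) D = w2 k a' b' e' := by
    unfold gw w2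
    apply asm_congr
    intro j _
    have h1 : D j = [0, 1] ∨ D j = [1, 0] := by
      have h2 := hD j
      have hlen := h2.length_eq
      rcases hDj : D j with _ | ⟨x, _ | ⟨y, _ | ⟨z, l⟩⟩⟩
      · rw [hDj] at hlen; simp at hlen
      · rw [hDj] at hlen; simp at hlen
      · rw [hDj] at h2
        have hx : x ∈ [0, 1] := h2.subset (by simp)
        have hy : y ∈ [0, 1] := h2.subset (by simp)
        have hnd : [x, y].Nodup := h2.nodup_iff.2 (by simp)
        simp only [List.mem_cons, List.not_mem_nil, or_false] at hx hy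
        simp only [List.nodup_cons, List.mem_cons, List.not_mem_nil, or_false, not_false_eq_true,
          List.nodup_nil, and_true] at hnd
        rcases hx with rfl | rfl <;> rcases hy with rfl | rfl
        · exact absurd rfl hnd
        · exact Or.inl rfl
        · exact Or.inr rfl
        · exact absurd rfl hnd
      · rw [hDj] at hlen; simp at hlen
    rcases h1 with h1 | h1
    · have h3 : e' j = false := by simp [he', h1]
      rw [h3, h1]
      simp [gb, bl, ha', hb']
    · have h3 : e' j = true := by simp [he', h1]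
      rw [h3, h1]
      simp [gb, bl, ha', hb']
  rw [hgw] at hDr
  have hρ : RR ρ (w2 k a b e) (w2 k a' b' e') := RRt hr (RRle hβρ hDr)
  -- one letter identities
  have hLa : L1 ρ k a a' := by
    have h1 := hρ.filter (fun c => decide (c ≠ 1))
    have hf : ∀ (a b : ℕ → ℕ) (e : ℕ → Bool),
        (w2 k a b e).filter (fun c => decide (c ≠ 1)) = mw k a := by
      intro a b e
      unfold w2 mw
      rw [asm_filter _ (by intro c h1 _; simp; omega)]
      apply asm_congr
      intro j _
      simp only [bl]
      split_ifs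
      · rw [List.filter_append, filter_rep_neg _ _ _ (by simp), filter_rep_pos _ _ _ (by simp)]
        simp
      · rw [List.filter_append, filter_rep_neg _ 1 _ (by simp), filter_rep_pos _ _ _ (by simp)]
        simp
    rw [hf, hf] at h1
    exact h1
  have hLb : L1 ρ k b b' := by
    have h1 := hρ.filter (fun c => decide (c ≠ 0))
    have hf : ∀ (a b : ℕ → ℕ) (e : ℕ → Bool),
        (w2 k a b e).filter (fun c => decide (c ≠ 0)) =
          asm k (fun j => List.replicate (b j) 1) := by
      intro a b e
      unfold w2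
      rw [asm_filter _ (by intro c h1 _; simp; omega)]
      apply asm_congr
      intro j _
      simp only [bl]
      split_ifs
      · rw [List.filter_append, filter_rep_neg _ 0 _ (by simp), filter_rep_pos _ 1 _ (by simp)]
        simp
      · rw [List.filter_append, filter_rep_neg _ 0 _ (by simp), filter_rep_pos _ 1 _ (by simp)]
        simp
    rw [hf, hf] at h1
    have h2 := rr_sub ρ (fun _ => [0]) (blkOk_rep k b 1 (by omega)) (blkOk_rep k b' 1 (by omega)) h1
    have e1 : ∀ b : ℕ → ℕ, asm k (fun j => (List.replicate (b j) 1).flatMap (fun _ => [0])) =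
        mw k b := by
      intro b
      unfold mw
      apply asm_congr
      intro j _
      exact rep_flat _ _ _ _ rfl
    rw [e1, e1] at h2
    exact h2
  rcases hT ρ hβρ hNC k a a' ha hd0.symm hLa with hLa' | hall
  swap
  · exact Or.inr fun e'' i hi => hall b e'' hb i hi
  rcases hT ρ hβρ hNC k b b' hb hd1.symm hLb with hLb' | hall
  swap
  · right
    intro e'' i hi
    have h1 := hall a (fun j => !(e'' j)) ha i hi
    unfold Ex at h1 ⊢
    have h2 := rr_sub ρ (fun c => if c = 0 then [1] else [0]) (blkOk_w2 k b a _)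
      (blkOk_w2 k b a _) h1
    have e1 : ∀ f : ℕ → Bool, asm k (fun j => (bl (b j) (a j) (f j)).flatMap
        (fun c => if c = 0 then [1] else [0])) = w2 k a b (fun j => !(f j)) := by
      intro f
      unfold w2
      apply asm_congr
      intro j _
      simp only [bl]
      by_cases hfj : f j = true
      · rw [if_pos hfj, if_neg (by simp [hfj]), List.flatMap_append,
          rep_flat _ 0 1 _ (by simp), rep_flat _ 1 0 _ (by simp)]
      · rw [if_neg hfj, if_pos (by simp [hfj]), List.flatMap_append,
          rep_flat _ 0 1 _ (by simp), rep_flat _ 1 0 _ (by simp)]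
    rw [e1, e1] at h2
    have e2 : (fun j => !(!(e'' j))) = e'' := by
      funext j
      simp
    have e3 : (fun j => !(flp (fun j => !(e'' j)) i j)) = flp e'' i := by
      funext j
      unfold flp
      split_ifs <;> simp
    rw [e2, e3] at h2
    exact h2
  -- both one letter identities are in `β`
  have hs1 : RR β (w2 k a b e') (w2 k a' b e') := by
    have h1 := rr_ins' β (fun j => if e' j then List.replicate (b j) 1 else [])
      (fun j => if e' j then [] else List.replicate (b j) 1) (blkOk_mw k a) (blkOk_mw k a') hLa'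
    have e1 : ∀ a : ℕ → ℕ, asm k (fun j => (if e' j then List.replicate (b j) 1 else []) ++
        List.replicate (a j) 0 ++ (if e' j then [] else List.replicate (b j) 1)) =
        w2 k a b e' := by
      intro a
      unfold w2
      apply asm_congr
      intro j _
      simp only [bl]
      split_ifs <;> simp
    rw [e1, e1] at h1
    exact h1
  have hs2 : RR β (w2 k a' b e') (w2 k a' b' e') := by
    have h1 := rr_ins β (fun j => if e' j then [] else List.replicate (a' j) 0)
      (fun j => if e' j then List.replicate (a' j) 0 else []) (fun _ => [1])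
      (blkOk_mw k b) (blkOk_mw k b') hLb'
    have e1 : ∀ b : ℕ → ℕ, asm k (fun j => (if e' j then [] else List.replicate (a' j) 0) ++
        (List.replicate (b j) 0).flatMap (fun _ => [1]) ++
          (if e' j then List.replicate (a' j) 0 else [])) = w2 k a' b e' := by
      intro b
      unfold w2
      apply asm_congr
      intro j _
      rw [rep_flat _ 0 1 _ rfl]
      simp only [bl]
      split_ifs <;> simp
    rw [e1, e1] at h1
    exact h1
  have hs : RR β (w2 k a b e') (w2 k a' b' e') := RRt hs1 hs2
  have hsB : RR β (w2 k a b e') (asm k B) := RRt hs hDr.symm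
  have hee : RR ρ (w2 k a b e) (w2 k a b e') := RRt hρ (RRle hβρ hs.symm)
  obtain ⟨r, hrr⟩ := hR k a b ha hb
  by_cases her : e r = e' r
  · exact Or.inl (RRt (hrr e e' her) hsB)
  · right
    intro e'' i _
    unfold Ex
    by_cases hir : i = r
    · subst hir
      by_cases h1 : e'' i = e i
      · have h2 : e' i = flp e'' i i := by
          unfold flp
          rw [if_pos rfl, h1]
          cases h3 : e i <;> cases h4 : e' i <;> simp_all
        exact RRt (RRle hβρ (hrr e'' e h1)) (RRt hee (RRle hβρ (hrr e' _ h2)))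
      · have h1' : e'' i = e' i := by
          cases h3 : e i <;> cases h4 : e' i <;> cases h5 : e'' i <;> simp_all
        have h2 : e i = flp e'' i i := by
          unfold flp
          rw [if_pos rfl, h1']
          cases h3 : e i <;> cases h4 : e' i <;> simp_all
        exact RRt (RRle hβρ (hrr e'' e' h1')) (RRt hee.symm (RRle hβρ (hrr e _ h2)))
    · refine RRle hβρ (hrr e'' _ ?_)
      unfold flp
      rw [if_neg (fun h => hir h.symm)]


end TWO

section TYP
open Pool.Agent.MVO.H41
theorem typ2 (haln : AlnStmt) (hone : OneStmt) {β : FIC} (hG : Gath2 β) (hOL : OneLaw β)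
    {ρ σ τ : FIC} (hρ : β ≤ ρ) (hσ : β ≤ σ) (hτ : β ≤ τ) (hρτ : ρ ≤ τ) (hn1 : NC2 ρ) (hn2 : NC2 σ)
    {k : ℕ} {X : List ℕ} {B B' : ℕ → List ℕ} (hX2 : X.length ≤ 2) (hX : X.Nodup)
    (hNS : ∀ c ∈ X, NS k c) (hB : BlkOk k B) (hBX : ∀ j ≤ k, ∀ c ∈ B j, c ∈ X)
    (hmult : ∀ c ∈ X, 2 ≤ deg k (fun j => (B j).count c)) (hrτ : RR τ (asm k B) (asm k B'))
    (hch : Relation.ReflTransGen (StA ρ σ k) B B') :
    ∃ D : ℕ → List ℕ, (∀ j, (D j).Perm X) ∧
      RR (FIC.sup ρ (FIC.inf σ τ)) (asm k B) (gw k (fun j c => (B' j).count c) D) := by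
  obtain ⟨D, hD, hrr⟩ := hG k B X hX2 hB hX hNS hBX hmult
  obtain ⟨hB', hdeg⟩ := typ_chain hB hch
  set ω : FIC := FIC.sup ρ (FIC.inf σ τ) with hω
  have hβω : β ≤ ω := fun u v h => FIC.le_sup_left ρ (FIC.inf σ τ) u v (hρ u v h)
  have hL1 : ∀ c ∈ X, L1 ω k (fun j => (B j).count c) (fun j => (B' j).count c) := by
    intro c hc
    exact hOL ρ σ τ hρ hσ hτ hρτ hn1 hn2 k _ _ (hmult c hc) (hdeg c)
      (hone.1 τ k B B' c (hNS c hc) hB hB' hrτ) (hone.2 ρ σ k B B' c (hNS c hc) hch)
  have claim : ∀ Y : List ℕ, (∀ c ∈ Y, c ∈ X) →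
      RR ω (asm k B) (gw k (fun j c => if c ∈ Y then (B' j).count c else (B j).count c) D) := by
    intro Y
    induction Y with
    | nil =>
      intro _
      have h1 : gw k (fun j c => if c ∈ ([] : List ℕ) then (B' j).count c else (B j).count c) D
          = gw k (fun j c => (B j).count c) D := by
        apply typ_gw_congr
        intro j _ c _
        rw [if_neg List.not_mem_nil]
      rw [h1]
      exact typ_rr_mono hβω hrr
    | cons c Y ih =>
      intro hY
      have ih' := ih fun d hd => hY d (List.mem_cons_of_mem _ hd)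
      by_cases hcY : c ∈ Y
      · have h1 : gw k (fun j d => if d ∈ c :: Y then (B' j).count d else (B j).count d) D
            = gw k (fun j d => if d ∈ Y then (B' j).count d else (B j).count d) D := by
          apply typ_gw_congr
          intro j _ d _
          by_cases hd : d ∈ Y
          · rw [if_pos (List.mem_cons_of_mem _ hd), if_pos hd]
          · have hd' : d ∉ c :: Y := by
              intro h
              rcases List.mem_cons.mp h with h | h
              · exact hd (h ▸ hcY)
              · exact hd h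
            rw [if_neg hd', if_neg hd]
        rw [h1]
        exact ih'
      · have hcX : c ∈ X := hY c List.mem_cons_self
        have h0 : (fun j => (fun j d => if d ∈ Y then (B' j).count d else (B j).count d) j c)
            = fun j => (B j).count c := by
          funext j
          simp only [if_neg hcY]
        have h2 := haln ω k X (fun j d => if d ∈ Y then (B' j).count d else (B j).count d) D hX hD c
          hcX (fun j => (B' j).count c) (by rw [h0]; exact hL1 c hcX)
        have h3 : gw k (fun j => Function.update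
            ((fun j d => if d ∈ Y then (B' j).count d else (B j).count d) j) c
              ((fun j => (B' j).count c) j)) D
            = gw k (fun j d => if d ∈ c :: Y then (B' j).count d else (B j).count d) D := by
          apply typ_gw_congr
          intro j _ d _
          by_cases hdc : d = c
          · subst hdc
            rw [Function.update_self, if_pos List.mem_cons_self]
          · rw [Function.update_of_ne hdc]
            show (if d ∈ Y then (B' j).count d else (B j).count d)
              = if d ∈ c :: Y then (B' j).count d else (B j).count d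
            by_cases hd : d ∈ Y
            · rw [if_pos (List.mem_cons_of_mem _ hd), if_pos hd]
            · have hd' : d ∉ c :: Y := by
                intro h
                rcases List.mem_cons.mp h with h | h
                · exact hdc h
                · exact hd h
              rw [if_neg hd', if_neg hd]
        rw [h3] at h2
        exact ω.trans ih' h2
  refine ⟨D, hD, ?_⟩
  have h1 := claim X fun c hc => hc
  have h2 : gw k (fun j c => if c ∈ X then (B' j).count c else (B j).count c) D
      = gw k (fun j c => (B' j).count c) D := by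
    apply typ_gw_congr
    intro j _ c hc
    rw [if_pos ((hD j).mem_iff.mp hc)]
  rw [h2] at h1
  exact h1


end TYP

/-- `SW` for a fixed list of letters -/
def SWX (β : FIC) (X : List ℕ) : Prop :=
  ∀ ω : FIC, β ≤ ω → ∀ (k : ℕ) (n : ℕ → ℕ → ℕ) (D : ℕ → List ℕ), GData k X n D →
    ∀ i ≤ k, ∀ (A B : List ℕ) (x y : ℕ), D i = A ++ x :: y :: B →
      (∀ e, Ex ω k (fun j => n j x) (fun j => n j y) e i) →
        RR ω (gw k n D) (gw k n (Function.update D i (A ++ y :: x :: B)))

/-- the block law for words with at most two multiple letters -/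
def BlkLaw2 (β : FIC) : Prop :=
  ∀ ρ σ τ : FIC, β ≤ ρ → β ≤ σ → β ≤ τ → ρ ≤ τ → NC2 ρ → NC2 σ →
    ∀ (k : ℕ) (B : ℕ → List ℕ) (v : List ℕ) (x y : ℕ), BlkOk k B →
      (∀ j ≤ k, ∀ c ∈ B j, c = x ∨ c = y) →
      (∀ j ≤ k, ∀ c ∈ B j, 2 ≤ deg k (fun j => (B j).count c)) →
      RR τ (asm k B) v → Relation.ReflTransGen (StB ρ σ) (asm k B) v →
        RR (FIC.sup ρ (FIC.inf σ τ)) (asm k B) v

theorem perm2 {x y : ℕ} {l : List ℕ} (hxy : x ≠ y) (h : l.Perm [x, y]) :
    l = [x, y] ∨ l = [y, x] := by
  have hlen := h.length_eq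
  rcases hl : l with _ | ⟨a, _ | ⟨b, _ | ⟨c, l'⟩⟩⟩
  · rw [hl] at hlen; simp at hlen
  · rw [hl] at hlen; simp at hlen
  · rw [hl] at h
    have ha : a ∈ [x, y] := h.subset (by simp)
    have hb : b ∈ [x, y] := h.subset (by simp)
    have hnd : [a, b].Nodup := h.nodup_iff.2 (by simp [hxy])
    simp only [List.mem_cons, List.not_mem_nil, or_false] at ha hb
    simp only [List.nodup_cons, List.mem_cons, List.not_mem_nil, or_false, not_false_eq_true,
      List.nodup_nil, and_true] at hnd
    rcases ha with rfl | rfl <;> rcases hb with rfl | rfl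
    · exact absurd rfl hnd
    · exact Or.inl rfl
    · exact Or.inr rfl
    · exact absurd rfl hnd
  · rw [hl] at hlen; simp at hlen

theorem swx2 (β : FIC) {X : List ℕ} (hX2 : X.length ≤ 2) : SWX β X := by
  intro ω hβω k n D hD i hi A B x y hDi hex
  have hpi := hD.perm i
  rw [hDi] at hpi
  have hlen := hpi.length_eq
  simp only [List.length_append, List.length_cons] at hlen
  have hA : A = [] := List.length_eq_zero_iff.1 (by omega)
  have hB : B = [] := List.length_eq_zero_iff.1 (by omega)
  subst hA hB
  rw [List.nil_append] at hDi hpi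
  rw [List.nil_append]
  have hne : x ≠ y := by
    have h1 := hpi.nodup_iff.2 hD.nodup
    simp only [List.nodup_cons, List.mem_cons, List.not_mem_nil, or_false] at h1
    exact h1.1
  have hxX : x ∈ X := hpi.mem_iff.1 (by simp)
  have hyX : y ∈ X := hpi.mem_iff.1 (by simp)
  have hDD : ∀ j, D j = [x, y] ∨ D j = [y, x] := fun j => perm2 hne ((hD.perm j).trans hpi.symm)
  set e : ℕ → Bool := fun j => decide (D j = [y, x]) with he
  have key : ∀ (D' : ℕ → List ℕ) (e' : ℕ → Bool),
      (∀ j, (D' j = [x, y] ∧ e' j = false) ∨ (D' j = [y, x] ∧ e' j = true)) →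
      asm k (fun j => (bl (n j x) (n j y) (e' j)).flatMap (fun c => if c = 0 then [x] else [y])) =
        gw k n D' := by
    intro D' e' h
    unfold gw
    apply asm_congr
    intro j _
    have hr : ∀ (t a b : ℕ) (h : ℕ → List ℕ), h a = [b] →
        (List.replicate t a).flatMap h = List.replicate t b :=
      fun t a b h hh => H47.rep_flat t a b h hh
    rcases h j with ⟨h1, h2⟩ | ⟨h1, h2⟩
    · rw [h1, h2]
      simp only [bl, gb, Bool.false_eq_true, ↓reduceIte, List.flatMap_append, List.flatMap_cons,
        List.flatMap_nil, List.append_nil]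
      rw [hr _ 0 x _ rfl, hr _ 1 y _ rfl]
    · rw [h1, h2]
      simp only [bl, gb, ↓reduceIte, List.flatMap_append, List.flatMap_cons,
        List.flatMap_nil, List.append_nil]
      rw [hr _ 0 x _ rfl, hr _ 1 y _ rfl]
  have h1 := hex e
  unfold Ex w2 at h1
  have h2 := rr_sub ω (fun c => if c = 0 then [x] else [y]) (H47.blkOk_w2 k _ _ e)
    (H47.blkOk_w2 k _ _ (flp e i)) h1
  rw [key D e (fun j => by
      rcases hDD j with h | h
      · left
        refine ⟨h, ?_⟩
        simp [he, h, hne]
      · right
        refine ⟨h, ?_⟩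
        simp [he, h])] at h2
  rw [key (Function.update D i [y, x]) (flp e i) (fun j => by
      by_cases hj : j = i
      · subst hj
        right
        rw [Function.update_self]
        refine ⟨rfl, ?_⟩
        simp [flp, he, hDi, hne]
      · rw [Function.update_of_ne hj]
        have h3 : flp e i j = e j := by unfold flp; rw [if_neg hj]
        rw [h3]
        rcases hDD j with h | h
        · left
          refine ⟨h, ?_⟩
          simp [he, h, hne]
        · right
          refine ⟨h, ?_⟩
          simp [he, h])] at h2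
  exact h2

section ORD
open Pool.Agent.MVO.H28
variable {X : List ℕ}
theorem stepX {β : FIC} (hR : Rig β) (hSW : SWX β X) (hT : Two β) {ρ σ τ : FIC} (hβρ : β ≤ ρ)
    (hβσ : β ≤ σ) (hβτ : β ≤ τ) (hρ : NC2 ρ) (hσ : NC2 σ) {k : ℕ}
    {n : ℕ → ℕ → ℕ} {D D' : ℕ → List ℕ} (hD : GData k X n D) (hD' : ∀ j, (D' j).Perm X)
    (hτ : RR τ (gw k n D) (gw k n D'))
    (hch : Relation.ReflTransGen (StA ρ σ k) (fun j => gb (n j) (D j))
      (fun j => gb (n j) (D' j))) {i : ℕ} (hi : i ≤ k) {l2 : List ℕ}
    (hex : Exch (D' i) (D i) l2) :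
    RR ρ (gw k n D) (gw k n (Function.update D i l2)) ∨
      RR (FIC.inf σ τ) (gw k n D) (gw k n (Function.update D i l2)) := by
  obtain ⟨A, B, x, y, hDi, rfl, P, Q, R, hD'i⟩ := hex
  have hGD' : GData k X n D' := ⟨hD.nodup, hD.ns, hD.mult, hD'⟩
  have hnd : ∀ j, (D j).Nodup := fun j => (hD.perm j).nodup_iff.2 hD.nodup
  have hnd' : ∀ j, (D' j).Nodup := fun j => (hD' j).nodup_iff.2 hD.nodup
  have hxX : x ∈ X := (hD.perm i).mem_iff.1 (by rw [hDi]; simp)
  have hyX : y ∈ X := (hD.perm i).mem_iff.1 (by rw [hDi]; simp)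
  have hne : x ≠ y := by
    intro h
    have h1 := hnd i
    rw [hDi, h] at h1
    have h2 := (List.nodup_append.1 h1).2.1
    rw [List.nodup_cons] at h2
    exact h2.1 (List.mem_cons_self ..)
  have hxD : ∀ j, x ∈ D j := fun j => (hD.perm j).mem_iff.2 hxX
  have hyD : ∀ j, y ∈ D j := fun j => (hD.perm j).mem_iff.2 hyX
  have hxD' : ∀ j, x ∈ D' j := fun j => (hD' j).mem_iff.2 hxX
  have hyD' : ∀ j, y ∈ D' j := fun j => (hD' j).mem_iff.2 hyX
  have hda : 2 ≤ deg k (fun j => n j x) := hD.mult x hxX
  have hdb : 2 ≤ deg k (fun j => n j y) := hD.mult y hyX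
  obtain ⟨r, hr⟩ := hR k (fun j => n j x) (fun j => n j y) hda hdb
  have hswρ : (∀ e, Ex ρ k (fun j => n j x) (fun j => n j y) e i) →
      RR ρ (gw k n D) (gw k n (Function.update D i (A ++ y :: x :: B))) :=
    hSW ρ hβρ k n D hD i hi A B x y hDi
  by_cases hri : r = i
  · subst hri
    -- the two letter words
    have e1 : asm k (fun j => (gb (n j) (D j)).flatMap (hxy x y)) =
        w2 k (fun j => n j x) (fun j => n j y) (fun j => bef x y (D j)) := by
      unfold w2
      exact asm_congr fun j _ => flat_bl (n j) hne (hnd j) (hxD j) (hyD j)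
    have e2 : asm k (fun j => (gb (n j) (D' j)).flatMap (hxy x y)) =
        w2 k (fun j => n j x) (fun j => n j y) (fun j => bef x y (D' j)) := by
      unfold w2
      exact asm_congr fun j _ => flat_bl (n j) hne (hnd' j) (hxD' j) (hyD' j)
    have hb0 : bef x y (D r) = false := by
      apply bef_false
      rintro ⟨P', Q', R', h⟩
      exact not_both hne (hnd r) (P := A) (Q := []) (R := B) (by rw [hDi]; simp) h
    have hb1 : bef x y (D' r) = true := bef_true ⟨P, Q, R, hD'i⟩
    have hτ2 : RR τ (w2 k (fun j => n j x) (fun j => n j y) (fun j => bef x y (D j)))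
        (w2 k (fun j => n j x) (fun j => n j y) (fun j => bef x y (D' j))) := by
      rw [← e1, ← e2]
      exact rr_sub τ (hxy x y) (blkOk_gb hD) (blkOk_gb hGD') hτ
    have hchain : ∀ C : ℕ → List ℕ,
        Relation.ReflTransGen (StA ρ σ k) (fun j => gb (n j) (D j)) C →
        deg k (fun j => (C j).count x) = deg k (fun j => n j x) ∧
        deg k (fun j => (C j).count y) = deg k (fun j => n j y) ∧
        (RR β (w2 k (fun j => n j x) (fun j => n j y) (fun j => bef x y (D j)))
            (asm k (fun j => (C j).flatMap (hxy x y))) ∨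
          (∀ e, Ex ρ k (fun j => n j x) (fun j => n j y) e r) ∨
          (∀ e, Ex σ k (fun j => n j x) (fun j => n j y) e r)) := by
      intro C hC
      induction hC with
      | refl =>
        refine ⟨?_, ?_, Or.inl ?_⟩
        · congr 1
          funext j
          exact count_gb (n j) (hnd j) (hxD j)
        · congr 1
          funext j
          exact count_gb (n j) (hnd j) (hyD j)
        · rw [e1]
          exact RR.refl _
      | tail hC1 hst ih =>
        rename_i C1 C2
        obtain ⟨hB1, hB2, hdeg, hrr⟩ := hst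
        obtain ⟨ihx, ihy, ih3⟩ := ih
        have hx2 : deg k (fun j => (C2 j).count x) = deg k (fun j => n j x) := by
          rw [← hdeg x, ihx]
        have hy2 : deg k (fun j => (C2 j).count y) = deg k (fun j => n j y) := by
          rw [← hdeg y, ihy]
        refine ⟨hx2, hy2, ?_⟩
        rcases ih3 with ih3 | ih3
        · have hx3 : deg k (fun j => ((C2 j).flatMap (hxy x y)).count 0) =
              deg k (fun j => n j x) := by
            rw [← hx2]
            congr 1
            funext j
            exact count_zero_flat _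
          have hy3 : deg k (fun j => ((C2 j).flatMap (hxy x y)).count 1) =
              deg k (fun j => n j y) := by
            rw [← hy2]
            congr 1
            funext j
            exact count_one_flat hne _
          rcases hrr with hrr | hrr
          · have h1 : RR ρ (w2 k (fun j => n j x) (fun j => n j y) (fun j => bef x y (D j)))
                (asm k (fun j => (C2 j).flatMap (hxy x y))) :=
              ρ.trans (hβρ _ _ ih3) (rr_sub ρ (hxy x y) hB1 hB2 hrr)
            rcases hT ρ hβρ hρ k _ _ _ (fun j => (C2 j).flatMap (hxy x y)) hda hdb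
              (blkOk_flat k x y C2) (fun j _ c hc => mem_flat hc) hx3 hy3 h1 with h2 | h2
            · exact Or.inl h2
            · exact Or.inr (Or.inl fun e => h2 e r hi)
          · have h1 : RR σ (w2 k (fun j => n j x) (fun j => n j y) (fun j => bef x y (D j)))
                (asm k (fun j => (C2 j).flatMap (hxy x y))) :=
              σ.trans (hβσ _ _ ih3) (rr_sub σ (hxy x y) hB1 hB2 hrr)
            rcases hT σ hβσ hσ k _ _ _ (fun j => (C2 j).flatMap (hxy x y)) hda hdb
              (blkOk_flat k x y C2) (fun j _ c hc => mem_flat hc) hx3 hy3 h1 with h2 | h2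
            · exact Or.inl h2
            · exact Or.inr (Or.inr fun e => h2 e r hi)
        · exact Or.inr ih3
    rcases (hchain _ hch).2.2 with h | h | h
    · rw [e2] at h
      left
      apply hswρ
      intro e
      exact hβρ _ _ (all_ex (θ := β) (fun _ _ h => h) hr hb0 hb1 h e)
    · exact Or.inl (hswρ h)
    · right
      have hβi : β ≤ FIC.inf σ τ := fun u v h => ⟨hβσ u v h, hβτ u v h⟩
      refine hSW (FIC.inf σ τ) hβi k n D hD r hi A B x y hDi fun e => ?_
      exact ⟨h e, all_ex hβτ hr hb0 hb1 hτ2 e⟩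
  · left
    apply hswρ
    intro e
    apply hβρ
    apply hr
    unfold flp
    rw [if_neg hri]

theorem stepX' {β : FIC} (hR : Rig β) (hSW : SWX β X) (hT : Two β) {ρ σ τ : FIC} (hβρ : β ≤ ρ)
    (hβσ : β ≤ σ) (hβτ : β ≤ τ) (hρτ : ρ ≤ τ) (hρ : NC2 ρ) (hσ : NC2 σ) {k : ℕ}
    {n : ℕ → ℕ → ℕ} {D D' : ℕ → List ℕ} (hI : Inv ρ σ τ k X n D' D)
    (hD' : ∀ j, (D' j).Perm X) {i : ℕ} (hi : i ≤ k) {l2 : List ℕ}
    (hex : Exch (D' i) (D i) l2) :
    Inv ρ σ τ k X n D' (Function.update D i l2) ∧
      RR (FIC.sup ρ (FIC.inf σ τ)) (gw k n D) (gw k n (Function.update D i l2)) := by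
  obtain ⟨hD, hτ, hch⟩ := hI
  have hst := stepX hR hSW hT hβρ hβσ hβτ hρ hσ hD hD' hτ hch hi hex
  have hD2 : GData k X n (Function.update D i l2) := by
    refine ⟨hD.nodup, hD.ns, hD.mult, fun j => ?_⟩
    by_cases hj : j = i
    · subst hj
      rw [Function.update_self]
      exact (exch_perm hex).trans (hD.perm j)
    · rw [Function.update_of_ne hj]
      exact hD.perm j
  have hτ2 : RR τ (gw k n D) (gw k n (Function.update D i l2)) := by
    rcases hst with h | h
    · exact hρτ _ _ h
    · exact h.2
  refine ⟨⟨hD2, τ.trans (RR.symm hτ2) hτ, ?_⟩, ?_⟩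
  · refine Relation.ReflTransGen.head ?_ hch
    refine ⟨blkOk_gb hD2, blkOk_gb hD, fun c => ?_, ?_⟩
    · congr 1
      funext j
      exact (gb_perm (n j) ((hD2.perm j).trans (hD.perm j).symm)).count_eq c
    · rcases hst with h | h
      · exact Or.inl (RR.symm h)
      · exact Or.inr (RR.symm h.1)
  · rcases hst with h | h
    · exact FIC.le_sup_left _ _ _ _ h
    · exact FIC.le_sup_right _ _ _ _ h

theorem ordX (hBub : BubStmt) {β : FIC} (hR : Rig β) (hSW : SWX β X) (hT : Two β) {ρ σ τ : FIC}
    (hβρ : β ≤ ρ) (hβσ : β ≤ σ) (hβτ : β ≤ τ) (hρτ : ρ ≤ τ) (hρ : NC2 ρ) (hσ : NC2 σ) {k : ℕ}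
    {n : ℕ → ℕ → ℕ} {D D' : ℕ → List ℕ} (hD : GData k X n D) (hD' : ∀ j, (D' j).Perm X)
    (hτ : RR τ (gw k n D) (gw k n D'))
    (hch : Relation.ReflTransGen (StA ρ σ k) (fun j => gb (n j) (D j))
      (fun j => gb (n j) (D' j))) :
    RR (FIC.sup ρ (FIC.inf σ τ)) (gw k n D) (gw k n D') := by
  have key : ∀ m ≤ k + 1, ∃ D1 : ℕ → List ℕ, Inv ρ σ τ k X n D' D1 ∧
      RR (FIC.sup ρ (FIC.inf σ τ)) (gw k n D) (gw k n D1) ∧ ∀ j < m, D1 j = D' j := by
    intro m
    induction m with
    | zero =>
      intro _
      exact ⟨D, ⟨hD, hτ, hch⟩, RR.refl _, fun j hj => absurd hj (Nat.not_lt_zero j)⟩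
    | succ m ih =>
      intro hm
      obtain ⟨D1, hI, hω, hj⟩ := ih (by omega)
      have hmk : m ≤ k := by omega
      have hb := hBub (D1 m) (D' m) ((hI.1.perm m).trans (hD' m).symm)
        ((hD' m).nodup_iff.2 hD.nodup)
      have hloop : ∀ l : List ℕ, Relation.ReflTransGen (Exch (D' m)) (D1 m) l →
          Inv ρ σ τ k X n D' (Function.update D1 m l) ∧
          RR (FIC.sup ρ (FIC.inf σ τ)) (gw k n D1) (gw k n (Function.update D1 m l)) := by
        intro l hl
        induction hl with
        | refl =>
          rw [Function.update_eq_self]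
          exact ⟨hI, RR.refl _⟩
        | tail hd hst ih2 =>
          rename_i l1 l2
          obtain ⟨hI1, hω1⟩ := ih2
          have h1 := stepX' hR hSW hT hβρ hβσ hβτ hρτ hρ hσ hI1 hD' hmk (l2 := l2)
            (by rw [Function.update_self]; exact hst)
          rw [Function.update_idem] at h1
          exact ⟨h1.1, FIC.trans _ hω1 h1.2⟩
      obtain ⟨h1, h2⟩ := hloop _ hb
      refine ⟨_, h1, FIC.trans _ hω h2, fun j hjm => ?_⟩
      by_cases hjm' : j = m
      · subst hjm'
        rw [Function.update_self]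
      · rw [Function.update_of_ne hjm']
        exact hj j (by omega)
  obtain ⟨D1, _, hω, hj⟩ := key (k + 1) le_rfl
  have e : gw k n D1 = gw k n D' := by
    unfold gw
    exact asm_congr fun j hjk => by rw [hj j (by omega)]
  rw [← e]
  exact hω


end ORD

section ASB
open Pool.Agent.MVO.H47
theorem asb2 (hCHB : ChbStmt) (hSEQ : SeqStmt) (hALN : AlnStmt) (hONE : OneStmt)
    (hBUB : BubStmt) (β : FIC) (hWU : WU β) (hG : Gath2 β) (hR : Rig β) (hOL : OneLaw β)
    (hTwo : Two β) : BlkLaw2 β := by
  intro ρ σ τ hβρ hβσ hβτ hρτ hNρ hNσ k B v x y hB hBxy hmult hτ hch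
  set ω := FIC.sup ρ (FIC.inf σ τ) with hω
  have hρω : ρ ≤ ω := FIC.le_sup_left _ _
  have hβω : β ≤ ω := FIC.le_trans' hβρ hρω
  have hωτ : ω ≤ τ := FIC.sup_le hρτ (FIC.inf_le_right _ _)
  have hωs : ω ≤ FIC.sup ρ σ :=
    FIC.sup_le (FIC.le_sup_left _ _) (FIC.le_trans' (FIC.inf_le_left _ _) (FIC.le_sup_right _ _))
  obtain ⟨B', rfl, hB', hdeg, hchA⟩ := hSEQ ρ σ hNρ hNσ k B v hB hch
  -- the letters
  set X : List ℕ := ((List.range (k + 1)).flatMap B).dedup with hX
  have hmemX : ∀ c, c ∈ X ↔ ∃ j ≤ k, c ∈ B j := by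
    intro c
    rw [hX, List.mem_dedup, List.mem_flatMap]
    constructor
    · rintro ⟨j, hj, hc⟩
      rw [List.mem_range] at hj
      exact ⟨j, by omega, hc⟩
    · rintro ⟨j, hj, hc⟩
      exact ⟨j, by rw [List.mem_range]; omega, hc⟩
  have hXnd : X.Nodup := List.nodup_dedup _
  have hX2 : X.length ≤ 2 := by
    have h1 : X ⊆ [x, y] := by
      intro c hc
      obtain ⟨j, hj, hcj⟩ := (hmemX c).1 hc
      rcases hBxy j hj c hcj with h | h
      · rw [h]; simp
      · rw [h]; simp
    exact (hXnd.subperm h1).length_le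
  have hXns : ∀ c ∈ X, NS k c := by
    intro c hc
    obtain ⟨j, hj, hcj⟩ := (hmemX c).1 hc
    exact hB j hj c hcj
  have hXm : ∀ c ∈ X, 2 ≤ deg k (fun j => (B j).count c) := by
    intro c hc
    obtain ⟨j, hj, hcj⟩ := (hmemX c).1 hc
    exact hmult j hj c hcj
  have hXm' : ∀ c ∈ X, 2 ≤ deg k (fun j => (B' j).count c) := by
    intro c hc
    rw [← hdeg c]
    exact hXm c hc
  have hBX : ∀ j ≤ k, ∀ c ∈ B j, c ∈ X := fun j hj c hc => (hmemX c).2 ⟨j, hj, hc⟩
  have hB'X : ∀ j ≤ k, ∀ c ∈ B' j, c ∈ X := by
    intro j hj c hc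
    have h1 : 0 < deg k (fun j => (B' j).count c) := by
      unfold deg
      refine Finset.sum_pos' (fun _ _ => Nat.zero_le _) ⟨j, ?_, ?_⟩
      · rw [Finset.mem_range]; omega
      · exact List.count_pos_iff.2 hc
    rw [← hdeg c] at h1
    obtain ⟨i, hi, hci⟩ := deg_pos h1
    exact (hmemX c).2 ⟨i, hi, List.count_pos_iff.1 hci⟩
  obtain ⟨D, hD, hug⟩ := typ2 hALN hONE hG hOL hβρ hβσ hβτ hρτ hNρ hNσ hX2 hXnd hXns hB hBX
    hXm hτ hchA
  obtain ⟨D', hD', hvg⟩ := hG k B' X hX2 hB' hXnd hXns hB'X hXm'
  set n : ℕ → ℕ → ℕ := fun j c => (B' j).count c with hn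
  have hgg : RR τ (gw k n D) (gw k n D') :=
    asb_trans (asb_le hωτ hug.symm) (asb_trans hτ (asb_le hβτ hvg))
  have hchs : RR (FIC.sup ρ σ) (asm k B) (asm k B') := by
    have key : ∀ w : List ℕ, Relation.ReflTransGen (StB ρ σ) (asm k B) w →
        RR (FIC.sup ρ σ) (asm k B) w := by
      intro w hw
      induction hw with
      | refl => exact RR.refl _
      | tail _ h2 ih =>
        refine asb_trans ih ?_
        rcases h2.2 with h3 | h3
        · exact asb_le (FIC.le_sup_left _ _) h3
        · exact asb_le (FIC.le_sup_right _ _) h3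
    exact key _ hch
  have hggs : RR (FIC.sup ρ σ) (gw k n D) (gw k n D') :=
    asb_trans (asb_le hωs hug.symm) (asb_trans hchs
      (asb_le (FIC.le_trans' hβρ (FIC.le_sup_left _ _)) hvg))
  have hbal : Bal (gw k n D) (gw k n D') := by
    intro c
    apply List.Perm.count_eq
    apply asm_perm
    intro j _
    unfold gb
    exact ((hD j).trans (hD' j).symm).flatMap_right _
  have hchB := hCHB β ρ σ hWU hβρ hβσ _ _ hbal hggs
  have hGok : ∀ E : ℕ → List ℕ, (∀ j, (E j).Perm X) → BlkOk k (fun j => gb (n j) (E j)) := by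
    intro E hE j _ c hc
    exact hXns c ((hE j).mem_iff.1 (mem_gb hc))
  obtain ⟨B2, hB2e, hB2ok, hB2deg, hB2ch⟩ := hSEQ ρ σ hNρ hNσ k (fun j => gb (n j) (D j))
    (gw k n D') (hGok D hD) hchB
  have hu := uniq (hGok D' hD') hB2ok hB2e
  have hlast : StA ρ σ k B2 (fun j => gb (n j) (D' j)) := by
    refine ⟨hB2ok, hGok D' hD', ?_, Or.inl ?_⟩
    · intro c
      apply deg_congr
      intro j hj
      show (B2 j).count c = (gb (n j) (D' j)).count c
      rw [← hu j hj]
    · rw [← hB2e]
      exact RR.refl _
  have hfin := ordX hBUB hR (swx2 β hX2) hTwo hβρ hβσ hβτ hρτ hNρ hNσ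
    ⟨hXnd, hXns, hXm', hD⟩ hD' hgg (hB2ch.tail hlast)
  exact asb_trans hug (asb_trans hfin (asb_le hβω hvg.symm))


end ASB

/-- the block law follows from the two letter law -/
theorem dbs {β : FIC} (hCOM : ComStmt) (hSEQ : SeqStmt) (hD : Det β) (h2 : BlkLaw2 β) :
    BlkLaw β := by
  intro ρ σ τ hβρ hβσ hβτ hρτ hNρ hNσ k B v hB hmult hτ hch
  set ω := FIC.sup ρ (FIC.inf σ τ) with hω
  have hρω : ρ ≤ ω := FIC.le_sup_left _ _
  have hβω : β ≤ ω := FIC.le_trans' hβρ hρω
  obtain ⟨B', rfl, hB', hdeg, hchA⟩ := hSEQ ρ σ hNρ hNσ k B v hB hch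
  by_cases hN : NC2 ω
  · refine hD ω hβω hN k B B' hB hB' hmult hdeg fun x y => ?_
    have hfil : ∀ C : ℕ → List ℕ, BlkOk k C → (asm k C).filter
        (fun c => decide (c = x ∨ c = y ∨ (2 ≤ c ∧ c ≤ k + 1))) = asm k (r2 x y C) := by
      intro C hC
      rw [asm_filter _ (by intro c h1 h3; simp; omega)]
      apply asm_congr
      intro j hj
      unfold r2
      apply List.filter_congr
      intro c hc
      have h3 := hC j hj c hc
      unfold NS at h3
      simp only [decide_eq_decide]
      constructor
      · rintro (h | h | h)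
        · exact Or.inl h
        · exact Or.inr h
        · exact absurd h h3
      · rintro (h | h)
        · exact Or.inl h
        · exact Or.inr (Or.inl h)
    have hcnt : ∀ c, (c = x ∨ c = y) → ∀ C : ℕ → List ℕ, ∀ j,
        (r2 x y C j).count c = (C j).count c := by
      intro c hc C j
      unfold r2
      rw [List.count_filter (by simp [hc])]
    rw [← hfil B' hB']
    refine h2 ρ σ τ hβρ hβσ hβτ hρτ hNρ hNσ k (r2 x y B) _ x y ?_ ?_ ?_ ?_ ?_
    · intro j hj c hc
      exact hB j hj c (List.mem_of_mem_filter hc)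
    · intro j hj c hc
      have h3 := (List.mem_filter.1 hc).2
      simpa using h3
    · intro j hj c hc
      have h3 := (List.mem_filter.1 hc).2
      simp only [decide_eq_true_eq] at h3
      have h4 := hmult j hj c (List.mem_of_mem_filter hc)
      have h5 : (fun j => (r2 x y B j).count c) = fun j => (B j).count c := by
        funext j
        exact hcnt c h3 B j
      rw [h5]
      exact h4
    · rw [← hfil B hB]
      exact hτ.filter _
    · rw [← hfil B hB]
      refine Relation.ReflTransGen.lift (fun w : List ℕ => w.filter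
        (fun c => decide (c = x ∨ c = y ∨ (2 ≤ c ∧ c ≤ k + 1)))) ?_ _ _ hch
      rintro u w ⟨hbal, hr⟩
      refine ⟨?_, ?_⟩
      · intro c
        change (u.filter (fun c => decide (c = x ∨ c = y ∨ (2 ≤ c ∧ c ≤ k + 1)))).count c =
          (w.filter (fun c => decide (c = x ∨ c = y ∨ (2 ≤ c ∧ c ≤ k + 1)))).count c
        have hgen : ∀ l : List ℕ,
            (l.filter (fun c => decide (c = x ∨ c = y ∨ (2 ≤ c ∧ c ≤ k + 1)))).count c =
              if (c = x ∨ c = y ∨ (2 ≤ c ∧ c ≤ k + 1)) then l.count c else 0 := by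
          intro l
          by_cases hc : (c = x ∨ c = y ∨ (2 ≤ c ∧ c ≤ k + 1))
          · rw [if_pos hc, List.count_filter (by simp only [decide_eq_true_eq]; exact hc)]
          · rw [if_neg hc, List.count_eq_zero]
            intro h
            have h7 := (List.mem_filter.1 h).2
            simp only [decide_eq_true_eq] at h7
            exact hc h7
        rw [hgen, hgen, hbal c]
      · rcases hr with hr | hr
        · exact Or.inl (hr.filter _)
        · exact Or.inr (hr.filter _)
  · have hc : RR ω [0, 1] [1, 0] := by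
      unfold NC2 at hN
      exact not_not.1 hN
    refine hCOM ω _ _ hc ?_
    intro c
    have key : ∀ w : List ℕ, Relation.ReflTransGen (StB ρ σ) (asm k B) w →
        (asm k B).count c = w.count c := by
      intro w hw
      induction hw with
      | refl => rfl
      | tail _ h3 ih => exact ih.trans (h3.1 c)
    exact key _ hch

/-- the sufficiency theorem for 2-determined intervals -/
theorem su2 : Su2Stmt := by
  intro β hD hG hR hT hO hW
  have hTwo := two2 β hG hR hT
  have h2 : BlkLaw2 β := asb2 H44.chb H6.seq H60.aln H5.one H10.bub β hW hG hR hO hTwo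
  exact H88.red H31.com H44.chb β hW (H75.nam H38.ren β (dbs H31.com H6.seq hD h2))

end Pool.Agent.MVO.H20
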