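import Pool.Agent.Helper10_MVO.BUB
import Pool.Agent.Helper10_MVO.RGC
import Pool.Agent.Helper16_MVO.APC
import Pool.Agent.Helper16_MVO.GAV
import Pool.Agent.Helper16_MVO.GLA
import Pool.Agent.Helper16_MVO.MRC
import Pool.Agent.Helper16_MVO.TFA
import Pool.Agent.Helper20_MVO.SU2
import Pool.Agent.Helper23_MVO.HOP
import Pool.Agent.Helper23_MVO.TC2
import Pool.Agent.Helper23_MVO.WUW
import Pool.Agent.Helper24_MVO.FCC
import Pool.Agent.Helper24_MVO.GBV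
import Pool.Agent.Helper24_MVO.GG2
import Pool.Agent.Helper24_MVO.ND4
import Pool.Agent.Helper24_MVO.SF3
import Pool.Agent.Helper25_MVO.FV6
import Pool.Agent.Helper25_MVO.GVN
import Pool.Agent.Helper26_MVO.GMC
import Pool.Agent.Helper26_MVO.SUF
import Pool.Agent.Helper27_MVO.FCN
import Pool.Agent.Helper27_MVO.SGC
import Pool.Agent.Helper28_MVO.FMA
import Pool.Agent.Helper28_MVO.LOX
import Pool.Agent.Helper28_MVO.LWB
import Pool.Agent.Helper28_MVO.NCA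
import Pool.Agent.Helper28_MVO.ND5
import Pool.Agent.Helper28_MVO.NV7
import Pool.Agent.Helper28_MVO.ORD
import Pool.Agent.Helper2_MVO.LLX
import Pool.Agent.Helper2_MVO.PPS
import Pool.Agent.Helper2_MVO.TFD
import Pool.Agent.Helper31_MVO.COM
import Pool.Agent.Helper34_MVO.GTS
import Pool.Agent.Helper34_MVO.OAR
import Pool.Agent.Helper34_MVO.RVO
import Pool.Agent.Helper35_MVO.FAA
import Pool.Agent.Helper35_MVO.FFX
import Pool.Agent.Helper35_MVO.RGA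
import Pool.Agent.Helper35_MVO.SML
import Pool.Agent.Helper37_MVO.NV4
import Pool.Agent.Helper37_MVO.NV5
import Pool.Agent.Helper38_MVO.NEC
import Pool.Agent.Helper38_MVO.REN
import Pool.Agent.Helper38_MVO.RGV
import Pool.Agent.Helper38_MVO.TCD
import Pool.Agent.Helper39_MVO.DTG
import Pool.Agent.Helper39_MVO.ISO
import Pool.Agent.Helper39_MVO.LWD
import Pool.Agent.Helper39_MVO.MVV
import Pool.Agent.Helper39_MVO.NCF
import Pool.Agent.Helper39_MVO.NPB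
import Pool.Agent.Helper39_MVO.NPC
import Pool.Agent.Helper39_MVO.OCA
import Pool.Agent.Helper3_MVO.TLO
import Pool.Agent.Helper40_MVO.GVS
import Pool.Agent.Helper40_MVO.NV2
import Pool.Agent.Helper40_MVO.TRI
import Pool.Agent.Helper41_MVO.ND2
import Pool.Agent.Helper41_MVO.TAB
import Pool.Agent.Helper41_MVO.TYP
import Pool.Agent.Helper41_MVO.WUB
import Pool.Agent.Helper42_MVO.LWC
import Pool.Agent.Helper43_MVO.NCB
import Pool.Agent.Helper43_MVO.NCC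
import Pool.Agent.Helper43_MVO.NCD
import Pool.Agent.Helper43_MVO.WUC
import Pool.Agent.Helper43_MVO.ZFR
import Pool.Agent.Helper44_MVO.CHB
import Pool.Agent.Helper44_MVO.ECB
import Pool.Agent.Helper44_MVO.SMD
import Pool.Agent.Helper44_MVO.TI3
import Pool.Agent.Helper45_MVO.SWC
import Pool.Agent.Helper47_MVO.ASB
import Pool.Agent.Helper47_MVO.FV4
import Pool.Agent.Helper47_MVO.TVC
import Pool.Agent.Helper47_MVO.TWO
import Pool.Agent.Helper48_MVO.T2V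
import Pool.Agent.Helper49_MVO.MRD
import Pool.Agent.Helper49_MVO.NEA
import Pool.Agent.Helper49_MVO.OAI
import Pool.Agent.Helper49_MVO.TRF
import Pool.Agent.Helper49_MVO.WUD
import Pool.Agent.Helper51_MVO.NCE
import Pool.Agent.Helper52_MVO.OLW
import Pool.Agent.Helper53_MVO.SEP
import Pool.Agent.Helper55_MVO.ECK
import Pool.Agent.Helper55_MVO.NOO
import Pool.Agent.Helper55_MVO.NV3
import Pool.Agent.Helper55_MVO.PWV
import Pool.Agent.Helper5_MVO.ONE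
import Pool.Agent.Helper5_MVO.RVG
import Pool.Agent.Helper5_MVO.TAD
import Pool.Agent.Helper60_MVO.ALN
import Pool.Agent.Helper62_MVO.DT3
import Pool.Agent.Helper62_MVO.GBC
import Pool.Agent.Helper62_MVO.OCR
import Pool.Agent.Helper62_MVO.ODR
import Pool.Agent.Helper62_MVO.SCC
import Pool.Agent.Helper64_MVO.TVA
import Pool.Agent.Helper65_MVO.NRA
import Pool.Agent.Helper65_MVO.ODA
import Pool.Agent.Helper65_MVO.TAC
import Pool.Agent.Helper66_MVO.GVB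
import Pool.Agent.Helper66_MVO.NFS
import Pool.Agent.Helper66_MVO.TVD
import Pool.Agent.Helper66_MVO.WBL
import Pool.Agent.Helper66_MVO.WUA
import Pool.Agent.Helper67_MVO.BUL
import Pool.Agent.Helper67_MVO.FV1
import Pool.Agent.Helper67_MVO.TCB
import Pool.Agent.Helper68_MVO.GLV
import Pool.Agent.Helper68_MVO.SWV
import Pool.Agent.Helper69_MVO.ND3
import Pool.Agent.Helper6_MVO.SEQ
import Pool.Agent.Helper6_MVO.SFA
import Pool.Agent.Helper72_MVO.ALT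
import Pool.Agent.Helper72_MVO.NEV
import Pool.Agent.Helper72_MVO.TVB
import Pool.Agent.Helper75_MVO.NAM
import Pool.Agent.Helper76_MVO.OPF
import Pool.Agent.Helper77_MVO.LN2
import Pool.Agent.Helper77_MVO.MRA
import Pool.Agent.Helper77_MVO.MRF
import Pool.Agent.Helper77_MVO.OAA
import Pool.Agent.Helper78_MVO.TAA
import Pool.Agent.Helper7_MVO.MRG
import Pool.Agent.Helper7_MVO.NPD
import Pool.Agent.Helper80_MVO.GTK
import Pool.Agent.Helper80_MVO.SGV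
import Pool.Agent.Helper80_MVO.SRT
import Pool.Agent.Helper81_MVO.ALB
import Pool.Agent.Helper81_MVO.FV7
import Pool.Agent.Helper81_MVO.PWC
import Pool.Agent.Helper81_MVO.SFC
import Pool.Agent.Helper81_MVO.SFV
import Pool.Agent.Helper82_MVO.GAC
import Pool.Agent.Helper82_MVO.LCL
import Pool.Agent.Helper82_MVO.NV6
import Pool.Agent.Helper87_MVO.LWA
import Pool.Agent.Helper88_MVO.NV1
import Pool.Agent.Helper88_MVO.RED
import Pool.Agent.Helper8_MVO.RVB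
import Pool.Agent.Helper90_MVO.GVK
import Pool.Agent.Helper91_MVO.NFA
import Pool.Agent.Helper91_MVO.NPA
import Pool.Agent.Helper91_MVO.TFB
import Pool.Agent.Helper92_MVO.LBX
import Pool.Agent.Helper92_MVO.LNN
import Pool.Agent.Helper92_MVO.SWA
import Pool.Agent.Helper94_MVO.DET
import Pool.Agent.Helper94_MVO.EXV
import Pool.Agent.Helper94_MVO.MRT
import Pool.Agent.Helper94_MVO.TCC
import Pool.Agent.Helper94_MVO.WU3
import Pool.Agent.Helper97_MVO.EXC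
import Pool.Agent.Helper97_MVO.GAA
import Pool.Agent.Helper97_MVO.GTB
import Pool.Agent.Helper97_MVO.GTC
import Pool.Agent.Helper97_MVO.TFC
import Pool.Agent.Helper98_MVO.RG2
import Pool.Agent.Helper98_MVO.TCA
import Pool.Agent.Helper9_MVO.GTN
import Pool.Agent.Helper9_MVO.ND1

/-!
# Composition of the rows of squad MVO (MP_23468a_al)

Every theorem in this file is the composition of the theorems of the finished rows, without hypotheses.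
-/

namespace Pool.Agent.MVO.All

open Pool.Agent.MVO

theorem hBub : Pool.Agent.MVO.BubStmt :=
  Pool.Agent.MVO.H10.bub
theorem hCom : Pool.Agent.MVO.ComStmt :=
  Pool.Agent.MVO.H31.com
theorem hChb : Pool.Agent.MVO.ChbStmt :=
  Pool.Agent.MVO.H44.chb
theorem hRed : Pool.Agent.MVO.RedStmt :=
  Pool.Agent.MVO.H88.red hCom hChb
theorem hRen : Pool.Agent.MVO.RenStmt :=
  Pool.Agent.MVO.H38.ren
theorem hNam : Pool.Agent.MVO.NamStmt :=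
  Pool.Agent.MVO.H75.nam hRen
theorem hSeq : Pool.Agent.MVO.SeqStmt :=
  Pool.Agent.MVO.H6.seq
theorem hAln : Pool.Agent.MVO.AlnStmt :=
  Pool.Agent.MVO.H60.aln
theorem hOne : Pool.Agent.MVO.OneStmt :=
  Pool.Agent.MVO.H5.one
theorem hTyp : Pool.Agent.MVO.TypStmt :=
  Pool.Agent.MVO.H41.typ hAln hOne
theorem hTwo : Pool.Agent.MVO.TwoStmt :=
  Pool.Agent.MVO.H47.two
theorem hOrd : Pool.Agent.MVO.OrdStmt :=
  Pool.Agent.MVO.H28.ord hBub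
theorem hAsb : Pool.Agent.MVO.AsbStmt :=
  Pool.Agent.MVO.H47.asb hChb hSeq hTyp hOrd
theorem hSuf : Pool.Agent.MVO.SufStmt :=
  Pool.Agent.MVO.H26.suf hRed hNam hTwo hAsb
theorem hTri : Pool.Agent.MVO.TriStmt :=
  Pool.Agent.MVO.H40.tri
theorem hSep : Pool.Agent.MVO.SepStmt :=
  Pool.Agent.MVO.H53.sep
theorem hOaa : Pool.Agent.MVO.OaaStmt :=
  Pool.Agent.MVO.H77.oaa
theorem hOai : Pool.Agent.MVO.OaiStmt :=
  Pool.Agent.MVO.H49.oai hOaa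
theorem hOar : Pool.Agent.MVO.OarStmt :=
  Pool.Agent.MVO.H34.oar hSep hOaa hOai
theorem hLwa : Pool.Agent.MVO.LwaStmt :=
  Pool.Agent.MVO.H87.lwa hTri hOaa hOar
theorem hWua : Pool.Agent.MVO.WuaStmt :=
  Pool.Agent.MVO.H66.wua hOaa
theorem hOca : Pool.Agent.MVO.OcaStmt :=
  Pool.Agent.MVO.H39.oca
theorem hOcr : Pool.Agent.MVO.OcrStmt :=
  Pool.Agent.MVO.H62.ocr hSep hOca
theorem hLwc : Pool.Agent.MVO.LwcStmt :=
  Pool.Agent.MVO.H42.lwc hTri hOca hOcr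
theorem hWuc : Pool.Agent.MVO.WucStmt :=
  Pool.Agent.MVO.H43.wuc hOca
theorem hOda : Pool.Agent.MVO.OdaStmt :=
  Pool.Agent.MVO.H65.oda
theorem hOdr : Pool.Agent.MVO.OdrStmt :=
  Pool.Agent.MVO.H62.odr hSep hOda
theorem hLwd : Pool.Agent.MVO.LwdStmt :=
  Pool.Agent.MVO.H39.lwd hLwa hOda hOdr
theorem hWud : Pool.Agent.MVO.WudStmt :=
  Pool.Agent.MVO.H49.wud hOda
theorem hOpf : Pool.Agent.MVO.OpfStmt :=
  Pool.Agent.MVO.H76.opf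
theorem hLwb : Pool.Agent.MVO.LwbStmt :=
  Pool.Agent.MVO.H28.lwb hOpf hLwc
theorem hWub : Pool.Agent.MVO.WubStmt :=
  Pool.Agent.MVO.H41.wub hOpf hWuc
theorem hOlw : Pool.Agent.MVO.OlwStmt :=
  Pool.Agent.MVO.H52.olw hLwa hLwb hLwc hLwd
theorem hWuw : Pool.Agent.MVO.WuwStmt :=
  Pool.Agent.MVO.H23.wuw hCom hRen hAln hWua hWub hWuc hWud
theorem hFma : Pool.Agent.MVO.FmaStmt :=
  Pool.Agent.MVO.H28.fma
theorem hNfa : Pool.Agent.MVO.NfaStmt :=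
  Pool.Agent.MVO.H91.nfa hFma
theorem hGaa : Pool.Agent.MVO.GaaStmt :=
  Pool.Agent.MVO.H97.gaa hNfa
theorem hRga : Pool.Agent.MVO.RgaStmt :=
  Pool.Agent.MVO.H35.rga hNfa
theorem hSwa : Pool.Agent.MVO.SwaStmt :=
  Pool.Agent.Helper92_MVO.swa hNfa
theorem hFaa : Pool.Agent.MVO.FaaStmt :=
  Pool.Agent.MVO.H35.faa hNfa
theorem hTaa : Pool.Agent.MVO.TaaStmt :=
  Pool.Agent.MVO.H78.taa hOaa hOar hFaa
theorem hTab : Pool.Agent.MVO.TabStmt :=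
  Pool.Agent.MVO.H41.tab hOpf hOcr hFaa
theorem hTac : Pool.Agent.MVO.TacStmt :=
  Pool.Agent.MVO.H65.tac hOca hOcr hFaa
theorem hTad : Pool.Agent.MVO.TadStmt :=
  Pool.Agent.MVO.H5.tad hOar hOda hOdr hFaa
theorem hSfa : Pool.Agent.MVO.SfaStmt :=
  Pool.Agent.MVO.H6.sfa hSuf hOlw hWuw hGaa hRga hSwa hTaa hTab hTac hTad
theorem hWbl : Pool.Agent.MVO.WblStmt :=
  Pool.Agent.MVO.H66.wbl
theorem hLnn : Pool.Agent.MVO.LnnStmt :=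
  Pool.Agent.Helper92_MVO.lnn hWbl
theorem hGtb : Pool.Agent.MVO.GtbStmt :=
  Pool.Agent.MVO.H97.gtb hWbl hNfa
theorem hGtn : Pool.Agent.MVO.GtnStmt :=
  Pool.Agent.MVO.H9.gtn
theorem hGts : Pool.Agent.MVO.GtsStmt :=
  Pool.Agent.MVO.H34.gts
theorem hGtk : Pool.Agent.MVO.GtkStmt :=
  Pool.Agent.MVO.H80.gtk
theorem hIso : Pool.Agent.MVO.IsoStmt :=
  Pool.Agent.MVO.H39.iso0
theorem hNra : Pool.Agent.MVO.NraStmt :=
  Pool.Agent.MVO.H65.nra hLnn hGtb hGtn hGaa hRga hWbl hIso hFaa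
theorem hNca : Pool.Agent.MVO.NcaStmt :=
  Pool.Agent.MVO.H28.nca hLnn hGtb hGtn hGts hGtk hGaa hRga hWua hOaa hOar hIso hFaa
theorem hNcb : Pool.Agent.MVO.NcbStmt :=
  Pool.Agent.MVO.H43.ncb hLnn hGtb hGtn hGts hGtk hGaa hRga hWua hOaa hOar hIso hFaa
theorem hNcc : Pool.Agent.MVO.NccStmt :=
  Pool.Agent.MVO.H43.ncc hLnn hGtb hGtn hGts hGtk hGaa hRga hWua hOaa hOar hIso hFaa
theorem hNcd : Pool.Agent.MVO.NcdStmt :=
  Pool.Agent.MVO.H43.ncd hLnn hGtb hGtn hGts hGtk hGaa hRga hWub hIso hFaa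
theorem hNce : Pool.Agent.MVO.NceStmt :=
  Pool.Agent.MVO.H51.nce hLnn hGtb hGtn hGts hGtk hGaa hRga hWub hOaa hOar hOpf hOcr hIso hFaa
theorem hNcf : Pool.Agent.MVO.NcfStmt :=
  Pool.Agent.MVO.H39F.ncf hLnn hGtb hGtn hGts hGtk hGaa hRga hWub hOaa hOar hOpf hOcr hIso hFaa
theorem hEcb : Pool.Agent.MVO.EcbStmt :=
  Pool.Agent.MVO.H44.ecb hWbl
theorem hEck : Pool.Agent.MVO.EckStmt :=
  Pool.Agent.MVO.H55.eck
theorem hNpa : Pool.Agent.MVO.NpaStmt :=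
  Pool.Agent.MVO.H91.npa hEcb hEck
theorem hNpb : Pool.Agent.MVO.NpbStmt :=
  Pool.Agent.MVO.H39.npb hEcb hEck
theorem hNpc : Pool.Agent.MVO.NpcStmt :=
  Pool.Agent.MVO.H39.npc hEcb hEck
theorem hRvo : Pool.Agent.MVO.RvoStmt :=
  Pool.Agent.MVO.H34.rvo
theorem hNpd : Pool.Agent.MVO.NpdStmt :=
  Pool.Agent.MVO.H7.npd hNpc hRvo
theorem hNoo : Pool.Agent.MVO.NooStmt :=
  Pool.Agent.MVO.H55.noo hNpa hNpb hNpc hNpd
theorem hNea : Pool.Agent.MVO.NeaStmt :=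
  Pool.Agent.MVO.H49.nea hNra hNca hNcb hNcc hNcd hNce hNcf hNoo
theorem hSgc : Pool.Agent.MVO.SgcStmt :=
  Pool.Agent.MVO.H27.sgc
theorem hApc : Pool.Agent.MVO.ApcStmt :=
  Pool.Agent.MVO.H16.apc hSgc
theorem hPwc : Pool.Agent.MVO.PwcStmt :=
  Pool.Agent.MVO.H81.pwc hSgc hApc
theorem hGmc : Pool.Agent.MVO.GmcStmt :=
  Pool.Agent.MVO.H26.gmc hSgc hApc
theorem hGbc : Pool.Agent.MVO.GbcStmt :=
  Pool.Agent.MVO.H62.gbc hGmc
theorem hGac : Pool.Agent.MVO.GacStmt :=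
  Pool.Agent.MVO.H82.gac hGbc
theorem hExc : Pool.Agent.MVO.ExcStmt :=
  Pool.Agent.MVO.H97.exc hPwc
theorem hRgc : Pool.Agent.MVO.RgcStmt :=
  Pool.Agent.MVO.H10.rgc hExc
theorem hSwc : Pool.Agent.MVO.SwcStmt :=
  Pool.Agent.MVO.H45.swc hExc
theorem hFcc : Pool.Agent.MVO.FccStmt :=
  Pool.Agent.MVO.H24.fcc hSgc hExc
theorem hTc2 : Pool.Agent.MVO.Tc2Stmt :=
  Pool.Agent.MVO.H23.tc2 hOaa hOar hFcc
theorem hTca : Pool.Agent.MVO.TcaStmt :=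
  Pool.Agent.MVO.H98.tca hOaa hOar hFcc hTc2
theorem hTcb : Pool.Agent.MVO.TcbStmt :=
  Pool.Agent.MVO.H67.tcb hOpf hOca hOcr hFcc
theorem hTcc : Pool.Agent.MVO.TccStmt :=
  Pool.Agent.MVO.H94.tcc hOca hOcr hFcc
theorem hTcd : Pool.Agent.MVO.TcdStmt :=
  Pool.Agent.MVO.H38.tcd hOda hOdr hFcc hTc2
theorem hSfc : Pool.Agent.MVO.SfcStmt :=
  Pool.Agent.MVO.H81.sfc hSuf hOlw hWuw hGac hRgc hSwc hTca hTcb hTcc hTcd
theorem hLn2 : Pool.Agent.MVO.Ln2Stmt :=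
  Pool.Agent.MVO.H77.ln2 hWbl
theorem hMra : Pool.Agent.MVO.MraStmt :=
  Pool.Agent.MVO.H77.mra
theorem hMrt : Pool.Agent.MVO.MrtStmt :=
  Pool.Agent.MVO.H94.mrt hMra
theorem hTrf : Pool.Agent.MVO.TrfStmt :=
  Pool.Agent.MVO.H49.trf
theorem hMrc : Pool.Agent.MVO.MrcStmt :=
  Pool.Agent.MVO.H16.mrc hMra hMrt
theorem hPps : Pool.Agent.MVO.PpsStmt :=
  Pool.Agent.MVO.H2.pps
theorem hMrd : Pool.Agent.MVO.MrdStmt :=
  Pool.Agent.MVO.H49.mrd hMra hMrt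
theorem hZfr : Pool.Agent.MVO.ZfrStmt :=
  Pool.Agent.MVO.H43.zfr hSgc
theorem hGtc : Pool.Agent.MVO.GtcStmt :=
  Pool.Agent.MVO.H97.gtc hWbl hTrf
theorem hRvb : Pool.Agent.MVO.RvbStmt :=
  Pool.Agent.MVO.H8.rvb
theorem hRvg : Pool.Agent.MVO.RvgStmt :=
  Pool.Agent.MVO.H5.rvg
theorem hHop : Pool.Agent.MVO.HopStmt :=
  Pool.Agent.MVO.H23.hop hRvg
theorem hNd1 : Pool.Agent.MVO.Nd1Stmt :=
  Pool.Agent.MVO.H9.nd1 hLn2 hGtc hGtn hGts hGtk hWua hOaa hOar hIso hTrf hPps hZfr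
theorem hNd2 : Pool.Agent.MVO.Nd2Stmt :=
  Pool.Agent.MVO.H41.nd2 hLn2 hGtc hGtn hGts hGtk hWub hOpf hOcr hIso hTrf hPps hZfr
theorem hNd3 : Pool.Agent.MVO.Nd3Stmt :=
  Pool.Agent.MVO.H69.nd3 hNd2 hHop hRvo hRvb
theorem hNd4 : Pool.Agent.MVO.Nd4Stmt :=
  Pool.Agent.MVO.H24.nd4 hNd1 hHop hRvo hRvb
theorem hNd5 : Pool.Agent.MVO.Nd5Stmt :=
  Pool.Agent.MVO.H28.nd5 hNoo hNd1 hNd2 hNd3 hNd4
theorem hNec : Pool.Agent.MVO.NecStmt :=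
  Pool.Agent.MVO.H38.nec hNd5 hGac hRgc
theorem hMvv : Pool.Agent.MVO.MvvStmt :=
  Pool.Agent.MVO.H39.mvv
theorem hGbv : Pool.Agent.MVO.GbvStmt :=
  Pool.Agent.MVO.H24.gbv hMvv
theorem hGav : Pool.Agent.MVO.GavStmt :=
  Pool.Agent.MVO.H16.gav hGbv
theorem hGlv : Pool.Agent.MVO.GlvStmt :=
  Pool.Agent.MVO.H68.glv hGbv
theorem hSgv : Pool.Agent.MVO.SgvStmt :=
  Pool.Agent.MVO.H80.sgv
theorem hPwv : Pool.Agent.MVO.PwvStmt :=
  Pool.Agent.MVO.H55.pwv hMvv hSgv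
theorem hExv : Pool.Agent.MVO.ExvStmt :=
  Pool.Agent.MVO.H94.exv hPwv
theorem hRgv : Pool.Agent.MVO.RgvStmt :=
  Pool.Agent.MVO.H38.rgv hExv
theorem hSwv : Pool.Agent.MVO.SwvStmt :=
  Pool.Agent.MVO.H68.swv hExv
theorem hMrg : Pool.Agent.MVO.MrgStmt :=
  Pool.Agent.MVO.H7.mrg
theorem hFv1 : Pool.Agent.MVO.Fv1Stmt :=
  Pool.Agent.MVO.H67.fv1 hExv
theorem hFv4 : Pool.Agent.MVO.Fv4Stmt :=
  Pool.Agent.MVO.H47.fv4 hGlv hFv1
theorem hFv6 : Pool.Agent.MVO.Fv6Stmt :=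
  Pool.Agent.MVO.H25.fv6 hGlv hMrg hFv1
theorem hFv7 : Pool.Agent.MVO.Fv7Stmt :=
  Pool.Agent.MVO.H81.fv7 hFv1 hFv6
theorem hT2v : Pool.Agent.MVO.T2vStmt :=
  Pool.Agent.MVO.H48.t2v hOar hFv1 hFv7
theorem hTva : Pool.Agent.MVO.TvaStmt :=
  Pool.Agent.MVO.H64.tva hOaa hOar hFv1 hFv4 hFv6 hFv7 hT2v
theorem hTvb : Pool.Agent.MVO.TvbStmt :=
  Pool.Agent.MVO.H72.tvb hOpf hOca hOcr hFv1 hFv4 hFv7 hT2v
theorem hTvc : Pool.Agent.MVO.TvcStmt :=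
  Pool.Agent.MVO.H47.tvc hOca hOcr hFv1 hFv4 hFv6 hFv7 hT2v
theorem hTvd : Pool.Agent.MVO.TvdStmt :=
  Pool.Agent.MVO.H66.tvd hOda hOdr hFv1 hT2v
theorem hSfv : Pool.Agent.MVO.SfvStmt :=
  Pool.Agent.MVO.H81.sfv hSuf hOlw hWuw hGav hRgv hSwv hTva hTvb hTvc hTvd
theorem hGvb : Pool.Agent.MVO.GvbStmt :=
  Pool.Agent.MVO.H66.gvb hWbl hGlv hFv1
theorem hGvn : Pool.Agent.MVO.GvnStmt :=
  Pool.Agent.MVO.H25.gvn
theorem hGvs : Pool.Agent.MVO.GvsStmt :=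
  Pool.Agent.MVO.H40.gvs
theorem hGvk : Pool.Agent.MVO.GvkStmt :=
  Pool.Agent.MVO.H90.gvk
theorem hNv1 : Pool.Agent.MVO.Nv1Stmt :=
  Pool.Agent.MVO.H88.nv1 hLnn hGvb hGvn hGvs hGvk hGav hRgv hWua hOaa hOar hIso hFv1 hFv4
theorem hNv2 : Pool.Agent.MVO.Nv2Stmt :=
  Pool.Agent.MVO.H40.nv2 hLnn hGvb hGvn hGvs hGvk hGav hRgv hWua hOaa hOar hIso hFv1 hFv4
theorem hNv3 : Pool.Agent.MVO.Nv3Stmt :=
  Pool.Agent.MVO.H55.nv3 hLnn hGvb hGvn hGvs hGvk hGav hRgv hWua hOaa hOar hIso hFv1 hFv4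
theorem hNv4 : Pool.Agent.MVO.Nv4Stmt :=
  Pool.Agent.MVO.H37.nv4 hLnn hGvb hGvn hGvs hGvk hGav hRgv hWub hOpf hOca hOcr hIso hFv1 hFv4
theorem hNv5 : Pool.Agent.MVO.Nv5Stmt :=
  Pool.Agent.MVO.H37.nv5 hLnn hGvb hGvn hGvs hGvk hGav hRgv hWub hOpf hOca hOcr hIso hFv4
theorem hNv6 : Pool.Agent.MVO.Nv6Stmt :=
  Pool.Agent.MVO.H82.nv6 hNv4 hNv5
theorem hNv7 : Pool.Agent.MVO.Nv7Stmt :=
  Pool.Agent.MVO.H28.nv7 hLnn hGvb hGvn hGvs hGvk hGav hRgv hWuc hOca hOcr hIso hFv1 hFv4 hFv7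
theorem hNev : Pool.Agent.MVO.NevStmt :=
  Pool.Agent.MVO.H72.nev hNv1 hNv2 hNv3 hNv6 hNv7 hNoo
theorem hNfs : Pool.Agent.MVO.NfsStmt :=
  Pool.Agent.MVO.H66.nfs hSgc
theorem hLcl : Pool.Agent.MVO.LclStmt :=
  Pool.Agent.MVO.H82.lcl hSgc
theorem hGg2 : Pool.Agent.MVO.Gg2Stmt :=
  Pool.Agent.MVO.H24.gg2 hNfs hLcl
theorem hRg2 : Pool.Agent.MVO.Rg2Stmt :=
  Pool.Agent.MVO.H98.rg2 hSgc hNfs
theorem hGla : Pool.Agent.MVO.GlaStmt :=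
  Pool.Agent.MVO.H16.gla hSgc hNfs
theorem hAlt : Pool.Agent.MVO.AltStmt :=
  Pool.Agent.MVO.H72.alt hGla
theorem hSmd : Pool.Agent.MVO.SmdStmt :=
  Pool.Agent.MVO.H44.smd
theorem hAlb : Pool.Agent.MVO.AlbStmt :=
  Pool.Agent.MVO.H81.alb hAlt hSmd
theorem hFfx : Pool.Agent.MVO.FfxStmt :=
  Pool.Agent.MVO.H35.ffx hNfs hGla
theorem hLlx : Pool.Agent.MVO.LlxStmt :=
  Pool.Agent.MVO.H2.llx hMra hMrt hMrc hFfx
theorem hLbx : Pool.Agent.MVO.LbxStmt :=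
  Pool.Agent.Helper92_MVO.lbx hSgc hGla
theorem hSml : Pool.Agent.MVO.SmlStmt :=
  Pool.Agent.MVO.H35.sml hSgc
theorem hBul : Pool.Agent.MVO.BulStmt :=
  Pool.Agent.MVO.H67.bul
theorem hSrt : Pool.Agent.MVO.SrtStmt :=
  Pool.Agent.MVO.H80.srt hSgc hFfx hLlx hLbx hSml hBul
theorem hDt3 : Pool.Agent.MVO.Dt3Stmt :=
  Pool.Agent.MVO.H62.dt3 hAlb hSrt
theorem hDtg : Pool.Agent.MVO.DtgStmt :=
  Pool.Agent.MVO.H39.dtg hBub hAln
theorem hDet : Pool.Agent.MVO.DetStmt :=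
  Pool.Agent.MVO.H94.det hGac hRgc hSwc hMrc hMrd hDt3 hDtg
theorem hFcn : Pool.Agent.MVO.FcnStmt :=
  Pool.Agent.MVO.H27F.fcn hSgc hZfr
theorem hTfa : Pool.Agent.MVO.TfaStmt :=
  Pool.Agent.MVO.H16.tfa hOaa hOar hFcn
theorem hTfb : Pool.Agent.MVO.TfbStmt :=
  Pool.Agent.MVO.H91.tfb hOpf hOca hOcr hFcn
theorem hTfc : Pool.Agent.MVO.TfcStmt :=
  Pool.Agent.MVO.H97.tfc hOca hOcr hFcn
theorem hTfd : Pool.Agent.MVO.TfdStmt :=
  Pool.Agent.MVO.H2.tfd hOda hOdr hFcn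
theorem hMrf : Pool.Agent.MVO.MrfStmt :=
  Pool.Agent.MVO.H77.mrf hMrt
theorem hLox : Pool.Agent.MVO.LoxStmt :=
  Pool.Agent.MVO.H28.lox hSgc hLcl
theorem hTlo : Pool.Agent.MVO.TloStmt :=
  Pool.Agent.MVO.H3.tlo hFcn hZfr hLox
theorem hTi3 : Pool.Agent.MVO.Ti3Stmt :=
  Pool.Agent.MVO.H44.ti3 hMrt hMrc hMrd hTca hTcb hTcc hTcd hSmd hFcn hTfa hTfb hTfc hTfd hMrf
    hTlo
theorem hWu3 : Pool.Agent.MVO.Wu3Stmt :=
  Pool.Agent.MVO.H94.wu3 hRen hGla hAlt hWua hWub hWuc hWud hWuw hGac hMrc hMrd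
theorem hSu2 : Pool.Agent.MVO.Su2Stmt :=
  Pool.Agent.MVO.H20.su2
theorem hSf3 : Pool.Agent.MVO.Sf3Stmt :=
  Pool.Agent.MVO.H24.sf3 hSu2 hOlw hGg2 hRg2 hDet hTi3 hWu3
theorem hScc : Pool.Agent.MVO.SccStmt :=
  Pool.Agent.MVO.H62.scc hSfc hMrt hMrc hSf3

end Pool.Agent.MVO.All
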